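import Pool.Agent.Helper97.HW.A2
import Pool.Agent.Helper49.HW.SysDefs

/-!
MP_074879_pr, block N0 (helper24).
-/

open Finset

namespace HW

namespace Sys
variable {f : ℝ → ℝ} (S : Sys f)

/-! ### Elementary bounds -/

theorem L_ge (j : ℕ) : 1000 ≤ S.L j := (S.inv j).L_ge

theorem L_mono (j : ℕ) : S.L j ≤ S.L (j + 1) := by
  rcases S.L_step j with h | h <;> omega

theorem e_ge (j : ℕ) : 1000 + 1000 * j ≤ S.e j := by
  induction j with
  | zero =>
    have h1 := (S.inv 0).L_le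
    have h2 := S.L_ge 0
    have h3 : S.L 0 ≤ S.L 0 ^ 5 := Nat.le_self_pow (by norm_num) _
    exact (show 1000 + 1000 * 0 ≤ S.L 0 by omega).trans (h3.trans h1)
  | succ j ih =>
    have h1 := S.e_step j
    have h2 := S.L_ge j
    rw [h1, Nat.mul_succ, ← add_assoc]
    exact add_le_add ih h2

theorem θ_le (j : ℕ) : S.θ (j + 1) ≤ (1 / 2) ^ (j + 20) := by
  have h1 := (S.inv (j + 1)).θ_sq
  have h2 := S.e_ge (j + 1)
  have h3 : (2 : ℝ) ^ (2 * (j + 20)) ≤ 2 ^ S.e (j + 1) :=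
    pow_le_pow_right₀ (by norm_num) (by omega)
  have h4 := (S.inv (j + 1)).θ_pos
  have h5 : S.θ (j + 1) ^ 2 * 2 ^ (2 * (j + 20)) ≤ 1 :=
    (mul_le_mul_of_nonneg_left h3 (by positivity)).trans h1
  have h6 : (S.θ (j + 1) * 2 ^ (j + 20)) ^ 2 ≤ 1 := by
    rw [mul_pow, ← pow_mul, mul_comm (j + 20) 2]
    exact h5
  have h7 : S.θ (j + 1) * 2 ^ (j + 20) ≤ 1 := by
    have := abs_le_of_sq_le_sq' (a := S.θ (j + 1) * 2 ^ (j + 20)) (b := 1) (by simpa using h6)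
      zero_le_one
    exact this.2
  rw [one_div, inv_pow, ← one_div, le_div_iff₀ (by positivity)]
  exact h7

theorem half_pow_le (j : ℕ) : ((1 : ℝ) / 2) ^ (j + 20) ≤ 1 / 1000 := by
  rw [pow_add]
  have : ((1 : ℝ) / 2) ^ j ≤ 1 := pow_le_one₀ (by norm_num) (by norm_num)
  nlinarith [show (0 : ℝ) ≤ (1 / 2) ^ j by positivity]

/-- N0 -/
theorem m_bounds (j : ℕ) : 1 ≤ S.m j ∧
    S.m j ≤ 1 + 1 / (8 * S.L j * 2 ^ (S.e j + S.L j)) + 2 * S.θ (j + 1) := by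
  have h1 := (S.inv (j + 1)).θ_pos
  have h2 := Inv.ms_bounds _ _ _ _ _ (S.inv j) (S.θ (j + 1)) h1.le
    ((S.θ_le j).trans (half_pow_le j))
  unfold m g
  rw [S.K_step j]
  exact h2

theorem m_le (j : ℕ) : S.m j ≤ 1 + 3 * (1 / 2) ^ (j + 20) := by
  have h1 := (S.m_bounds j).2
  have h2 := S.θ_le j
  have h3 : 1 / (8 * (S.L j : ℝ) * 2 ^ (S.e j + S.L j)) ≤ (1 / 2) ^ (j + 20) := by
    rw [one_div, one_div, inv_pow]
    apply inv_anti₀ (by positivity)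
    have h4 : (2 : ℝ) ^ (j + 20) ≤ 2 ^ (S.e j + S.L j) :=
      pow_le_pow_right₀ (by norm_num) (by have := S.e_ge j; omega)
    have h5 : (1 : ℝ) ≤ S.L j := by
      have := S.L_ge j
      exact_mod_cast (by omega : 1 ≤ S.L j)
    nlinarith [show (0 : ℝ) < 2 ^ (S.e j + S.L j) by positivity]
  linarith

/-- N0 -/
theorem cc_bounds (j : ℕ) : 1 ≤ S.cc j ∧ S.cc j ≤ 2 := by
  have key : ∀ j : ℕ, 1 ≤ S.cc j ∧ S.cc j ≤ 2 - (1 / 2) ^ j := by
    intro j
    induction j with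
    | zero => simp [cc]; norm_num
    | succ j ih =>
      have h1 : S.cc (j + 1) = S.cc j * S.m j := by unfold cc; rw [prod_range_succ]
      have h2 := (S.m_bounds j).1
      have h3 := S.m_le j
      rw [h1]
      constructor
      · nlinarith [ih.1]
      · have h4 : S.cc j * S.m j ≤ (2 - (1 / 2) ^ j) * (1 + 3 * (1 / 2) ^ (j + 20)) :=
          mul_le_mul ih.2 h3 (by linarith) (by linarith [ih.1, ih.2])
        refine h4.trans ?_
        have h5 : (0 : ℝ) < (1 / 2) ^ j := by positivity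
        have e1 : ((1 : ℝ) / 2) ^ (j + 20) = (1 / 2) ^ j * (1 / 1048576) := by
          rw [pow_add]
          norm_num
        have e2 : ((1 : ℝ) / 2) ^ (j + 1) = (1 / 2) ^ j * (1 / 2) := pow_succ _ _
        rw [e1, e2]
        nlinarith
  refine ⟨(key j).1, (key j).2.trans ?_⟩
  have : (0 : ℝ) < (1 / 2) ^ j := by positivity
  linarith

/-- N0 -/
theorem ss_bounds (j : ℕ) : 0 ≤ S.ss j ∧ S.ss j ≤ 1 / 1000 := by
  have key : ∀ j : ℕ, 0 ≤ S.ss j ∧ S.ss j ≤ 1 / 1000 * (1 - (1 / 2) ^ j) := by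
    intro j
    induction j with
    | zero => simp [ss]
    | succ j ih =>
      have h1 : S.ss (j + 1) = S.ss j + S.θ (j + 1) := by unfold ss; rw [sum_range_succ]
      have h2 := (S.inv (j + 1)).θ_pos
      have h3 := S.θ_le j
      rw [h1]
      refine ⟨by linarith [ih.1], ?_⟩
      have h5 : (0 : ℝ) < (1 / 2) ^ j := by positivity
      rw [pow_add] at h3
      rw [pow_succ]
      nlinarith [ih.2]
  refine ⟨(key j).1, (key j).2.trans ?_⟩
  have : (0 : ℝ) < (1 / 2) ^ j := by positivity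
  linarith

theorem m_pos (j : ℕ) : 0 < S.m j := lt_of_lt_of_le one_pos (S.m_bounds j).1

theorem W_succ (j k : ℕ) : S.W (j + 1) k =
    (S.W j k + S.g j k) * Real.exp (-S.θ (j + 1) * ((k : ℝ) - 1)) / S.m j := by
  rw [S.W_step j]
  unfold nextW tilt m g
  rw [S.K_step j]

/-- N0 -/
theorem W_eq (j k : ℕ) :
    S.W j k = (S.cc j)⁻¹ * Real.exp (-S.ss j * ((k : ℝ) - 1)) * S.wA j k := by
  induction j with
  | zero => simp [cc, ss, wA]
  | succ j ih =>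
    have h1 : S.cc (j + 1) = S.cc j * S.m j := by unfold cc; rw [prod_range_succ]
    have h2 : S.ss (j + 1) = S.ss j + S.θ (j + 1) := by unfold ss; rw [sum_range_succ]
    have h3 : S.wA (j + 1) k = S.wA j k + S.colA j k := by
      unfold wA
      rw [sum_range_succ]
      ring
    have hc : S.cc j ≠ 0 := (lt_of_lt_of_le one_pos (S.cc_bounds j).1).ne'
    have hm := (S.m_pos j).ne'
    rw [S.W_succ, h1, h2, h3, ih]
    have h4 : -(S.ss j + S.θ (j + 1)) * ((k : ℝ) - 1) =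
        -S.ss j * ((k : ℝ) - 1) + -S.θ (j + 1) * ((k : ℝ) - 1) := by ring
    rw [h4, Real.exp_add]
    unfold colA
    have h5 : Real.exp (S.ss j * ((k : ℝ) - 1)) = (Real.exp (-S.ss j * ((k : ℝ) - 1)))⁻¹ := by
      rw [← Real.exp_neg]
      congr 1
      ring
    rw [h5]
    have h6 := (Real.exp_pos (-S.ss j * ((k : ℝ) - 1))).ne'
    field_simp

theorem eps_pos (j : ℕ) : 0 < S.ε j := (Inv.eps_pow _ _ _ _ _ (S.inv j)).1

theorem F_succ (j : ℕ) (s : ℝ) : Fs (S.W (j + 1)) (S.K (j + 1)) s =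
    Fs (fun k => S.W j k + S.g j k) (S.K (j + 1)) (s + S.θ (j + 1)) / S.m j := by
  unfold Fs
  rw [sum_div]
  refine sum_congr rfl fun k _ => ?_
  rw [S.W_succ]
  have h4 : -(s + S.θ (j + 1)) * ((k : ℝ) - 1) =
      -S.θ (j + 1) * ((k : ℝ) - 1) + -s * ((k : ℝ) - 1) := by ring
  rw [h4, Real.exp_add]
  ring

theorem F_step (j : ℕ) (s : ℝ) (hs : 0 ≤ s) :
    19 / 20 * Fs (S.W j) (S.K j) (s + S.θ (j + 1)) ≤ Fs (S.W (j + 1)) (S.K (j + 1)) s := by
  have hθ := (S.inv (j + 1)).θ_pos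
  have h1 := Inv.Fs_add_ge _ _ _ _ _ (S.inv j) (s + S.θ (j + 1)) (by linarith)
  have h2 : 0 < Fs (S.W j) (S.K j) (s + S.θ (j + 1)) := by
    have h3 := Fs_mono (S.W j) (S.K j) (S.inv j).law.nonneg 0 (s + S.θ (j + 1)) (by linarith)
    rw [Fs_zero] at h3
    exact (S.eps_pos j).trans_le h3
  rw [F_succ, le_div_iff₀ (S.m_pos j), S.K_step j]
  refine le_trans ?_ h1
  have h4 := S.m_le j
  have h5 := half_pow_le j
  have h6 : (1000 : ℝ) ≤ S.L j := by exact_mod_cast S.L_ge j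
  have h7 : 1 / (S.L j : ℝ) ≤ 1 / 1000 := one_div_le_one_div_of_le (by norm_num) h6
  have h8 : 19 / 20 * S.m j ≤ 1 - 1 / (S.L j : ℝ) := by linarith
  calc 19 / 20 * Fs (S.W j) (S.K j) (s + S.θ (j + 1)) * S.m j
      = 19 / 20 * S.m j * Fs (S.W j) (S.K j) (s + S.θ (j + 1)) := by ring
    _ ≤ (1 - 1 / (S.L j : ℝ)) * Fs (S.W j) (S.K j) (s + S.θ (j + 1)) :=
        mul_le_mul_of_nonneg_right h8 h2.le

theorem eps_chain' (j d : ℕ) : ∀ s : ℝ, 0 ≤ s →
    (19 / 20) ^ d * Fs (S.W j) (S.K j) (s + (S.ss (j + d) - S.ss j)) ≤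
      Fs (S.W (j + d)) (S.K (j + d)) s := by
  induction d with
  | zero =>
    intro s _
    simp
  | succ d ih =>
    intro s hs
    have hθ := (S.inv (j + d + 1)).θ_pos
    have h1 := ih (s + S.θ (j + d + 1)) (by linarith)
    have h2 : S.ss (j + d + 1) = S.ss (j + d) + S.θ (j + d + 1) := by
      unfold ss; rw [sum_range_succ]
    have h3 := S.F_step (j + d) s hs
    rw [← add_assoc, h2]
    have h4 : s + (S.ss (j + d) + S.θ (j + d + 1) - S.ss j) =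
        s + S.θ (j + d + 1) + (S.ss (j + d) - S.ss j) := by ring
    rw [h4, pow_succ]
    linarith

/-- N0: `ε_m ≥ 0.95^{m-j} F_j(ss_m - ss_j)`, in particular `≥ 0.95^{m-j} ε_j`  -/
theorem eps_chain (j m : ℕ) (hjm : j ≤ m) :
    (19 / 20) ^ (m - j) * Fs (S.W j) (S.K j) (S.ss m - S.ss j) ≤ S.ε m := by
  obtain ⟨d, rfl⟩ := Nat.exists_eq_add_of_le hjm
  have h := S.eps_chain' j d 0 le_rfl
  rw [Fs_zero, zero_add] at h
  rw [Nat.add_sub_cancel_left]
  exact h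

theorem q_eq (j : ℕ) : S.q j = 1 / (64 * S.L j * 4 ^ S.L j * S.ε j * 4 ^ S.e j) := by
  unfold q qc b
  have h1 := (S.eps_pos j).ne'
  have h2 : (S.L j : ℝ) ≠ 0 := by
    have := S.L_ge j
    positivity
  have h3 : (4 : ℝ) ^ S.L j = 2 ^ S.L j * 2 ^ S.L j := by
    rw [← mul_pow]; norm_num
  have h4 : (4 : ℝ) ^ S.e j = 2 ^ S.e j * 2 ^ S.e j := by
    rw [← mul_pow]; norm_num
  rw [h3, h4]
  field_simp
  ring

/-- N0: ratio of consecutive heights of colours -/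
theorem q_ratio (j : ℕ) : S.q j ≤ 4 * 4 ^ (S.L (j + 1)) * S.τ (j + 1) * S.q (j + 1) := by
  rw [S.q_eq, S.q_eq, S.e_step j, pow_add]
  have h1 := S.eps_pos j
  have h2 := S.eps_pos (j + 1)
  have h3 : (0 : ℝ) < S.L j := by
    have := S.L_ge j
    exact_mod_cast (by omega : 0 < S.L j)
  have h4 : (0 : ℝ) < S.L (j + 1) := by
    have := S.L_ge (j + 1)
    exact_mod_cast (by omega : 0 < S.L (j + 1))
  have h5 : (S.L (j + 1) : ℝ) ≤ 4 * S.L j := by
    have h := S.L_step j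
    have h' := S.L_ge j
    exact_mod_cast (by omega : S.L (j + 1) ≤ 4 * S.L j)
  have h6 : S.ε (j + 1) ≤ S.ε j * S.τ (j + 1) := S.rho j
  have h7 : 0 < S.τ (j + 1) := by
    by_contra hcon
    have : S.ε j * S.τ (j + 1) ≤ 0 := mul_nonpos_of_nonneg_of_nonpos h1.le (not_lt.1 hcon)
    linarith
  have e1 : 4 * 4 ^ S.L (j + 1) * S.τ (j + 1) *
      (1 / (64 * S.L (j + 1) * 4 ^ S.L (j + 1) * S.ε (j + 1) * (4 ^ S.e j * 4 ^ S.L j))) =
      (4 * S.τ (j + 1)) / (64 * S.L (j + 1) * S.ε (j + 1) * (4 ^ S.e j * 4 ^ S.L j)) := by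
    field_simp
  rw [e1, div_le_div_iff₀ (by positivity) (by positivity)]
  have h8 : (S.L (j + 1) : ℝ) * S.ε (j + 1) ≤ 4 * S.L j * (S.ε j * S.τ (j + 1)) :=
    mul_le_mul h5 h6 h2.le (by positivity)
  calc 1 * (64 * S.L (j + 1) * S.ε (j + 1) * (4 ^ S.e j * 4 ^ S.L j))
      = 64 * (4 ^ S.e j * 4 ^ S.L j) * (S.L (j + 1) * S.ε (j + 1)) := by ring
    _ ≤ 64 * (4 ^ S.e j * 4 ^ S.L j) * (4 * S.L j * (S.ε j * S.τ (j + 1))) :=
        mul_le_mul_of_nonneg_left h8 (by positivity)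
    _ = 4 * S.τ (j + 1) * (64 * S.L j * 4 ^ S.L j * S.ε j * 4 ^ S.e j) := by ring

theorem q_pos (j : ℕ) : 0 < S.q j := by
  have h1 := S.eps_pos j
  have h3 : (0 : ℝ) < S.L j := by
    have := S.L_ge j
    exact_mod_cast (by omega : 0 < S.L j)
  rw [S.q_eq]
  positivity

theorem q_step (j : ℕ) : S.q (j + 1) ≤ 1 / (S.L j * 2 ^ 4) * S.q j := by
  rw [S.q_eq, S.q_eq, S.e_step j, pow_add]
  have h1 := S.eps_pos j
  have h2 := S.eps_pos (j + 1)
  have h3 : (0 : ℝ) < S.L j := by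
    have := S.L_ge j
    exact_mod_cast (by omega : 0 < S.L j)
  have h4 : (0 : ℝ) < S.L (j + 1) := by
    have := S.L_ge (j + 1)
    exact_mod_cast (by omega : 0 < S.L (j + 1))
  have h5 : (S.L j : ℝ) ≤ S.L (j + 1) := by exact_mod_cast S.L_mono j
  have h6 : 19 / 20 * S.ε j ≤ S.ε (j + 1) := by
    have hθ := (S.inv (j + 1)).θ_pos
    have g1 := S.F_step j 0 le_rfl
    rw [Fs_zero, zero_add] at g1
    have g2 := Fs_mono (S.W j) (S.K j) (S.inv j).law.nonneg 0 (S.θ (j + 1)) hθ.le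
    rw [Fs_zero] at g2
    have g3 : S.ε j = epsL (S.W j) (S.K j) := rfl
    have g4 : S.ε (j + 1) = epsL (S.W (j + 1)) (S.K (j + 1)) := rfl
    linarith
  -- `32 L_j ≤ 4 ^ L_j`
  have h7 : (32 : ℝ) * S.L j ≤ 4 ^ S.L j := by
    have hnat : ∀ n : ℕ, 5 ≤ n → 32 * n ≤ 4 ^ n := by
      intro n hn
      induction n, hn using Nat.le_induction with
      | base => norm_num
      | succ n hn ih => rw [pow_succ]; omega
    have := hnat (S.L j) (by have := S.L_ge j; omega)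
    exact_mod_cast this
  have h8 : (4 : ℝ) ^ S.L j ≤ 4 ^ S.L (j + 1) := pow_le_pow_right₀ (by norm_num) (S.L_mono j)
  rw [div_mul_div_comm, one_mul, div_le_div_iff₀ (by positivity) (by positivity)]
  have h9 : (S.L j : ℝ) * 2 ^ 4 * S.ε j ≤ 4 ^ S.L (j + 1) * S.ε (j + 1) := by
    have g1 : S.ε j ≤ 2 * S.ε (j + 1) := by linarith
    have g2 : (S.L j : ℝ) * 2 ^ 4 * S.ε j ≤ (S.L j : ℝ) * 2 ^ 4 * (2 * S.ε (j + 1)) :=
      mul_le_mul_of_nonneg_left g1 (by positivity)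
    have g3 : (S.L j : ℝ) * 2 ^ 4 * 2 ≤ 4 ^ S.L (j + 1) := by linarith
    calc (S.L j : ℝ) * 2 ^ 4 * S.ε j ≤ ((S.L j : ℝ) * 2 ^ 4 * 2) * S.ε (j + 1) := by
          linarith
      _ ≤ _ := mul_le_mul_of_nonneg_right g3 h2.le
  have h10 : (S.L j : ℝ) * (S.L j * 2 ^ 4 * S.ε j) ≤
      S.L (j + 1) * (4 ^ S.L (j + 1) * S.ε (j + 1)) :=
    mul_le_mul h5 h9 (by positivity) h4.le
  calc 1 * ((S.L j : ℝ) * 2 ^ 4 * (64 * S.L j * 4 ^ S.L j * S.ε j * 4 ^ S.e j))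
      = 64 * 4 ^ S.L j * 4 ^ S.e j * (S.L j * (S.L j * 2 ^ 4 * S.ε j)) := by ring
    _ ≤ 64 * 4 ^ S.L j * 4 ^ S.e j * (S.L (j + 1) * (4 ^ S.L (j + 1) * S.ε (j + 1))) :=
        mul_le_mul_of_nonneg_left h10 (by positivity)
    _ = 1 * (64 * S.L (j + 1) * 4 ^ S.L (j + 1) * S.ε (j + 1) * (4 ^ S.e j * 4 ^ S.L j)) := by
        ring

/-- N4d: sizes of the colours -/
theorem q_decay (j m : ℕ) (hm : j < m) : S.q m ≤ 1 / (S.L j * 2 ^ (m - j + 3)) * S.q j := by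
  induction m, hm using Nat.le_induction with
  | base =>
    rw [show j + 1 - j + 3 = 4 by omega]
    exact S.q_step j
  | succ m hm ih =>
    have h1 := S.q_step m
    have h2 := S.q_pos m
    have h3 : (1 : ℝ) / (S.L m * 2 ^ 4) ≤ 1 / 2 := by
      apply one_div_le_one_div_of_le (by norm_num)
      have : (1000 : ℝ) ≤ S.L m := by exact_mod_cast S.L_ge m
      linarith
    have h4 : S.q (m + 1) ≤ 1 / 2 * S.q m :=
      h1.trans (mul_le_mul_of_nonneg_right h3 h2.le)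
    have h5 : (0 : ℝ) < S.L j := by
      have := S.L_ge j
      exact_mod_cast (by omega : 0 < S.L j)
    have h6 : (1 : ℝ) / (S.L j * 2 ^ (m + 1 - j + 3)) = 1 / 2 * (1 / (S.L j * 2 ^ (m - j + 3))) := by
      rw [show m + 1 - j + 3 = (m - j + 3) + 1 by omega, pow_succ]
      field_simp
    rw [h6]
    linarith

end Sys

end HW
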